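import Pool.Agent.H84.SS.Targets

/-!
Row A_ATM of ssp_modules: removing finitely many atoms of the spectral measure by eigenfunctions.
-/

set_option autoImplicit false

namespace Pool.Agent.H94.SS

open MeasureTheory Filter Topology Set ProbabilityTheory
open scoped ENNReal ComplexConjugate
open Pool.Agent.H84.SS
open Pool.Agent.H85.RT (avg GoodWeight Good)
open Pool.Agent.H94.RTB (LGood PD)

universe u v

theorem pf_ATM (h : Pool.Agent.H94.RTB.T_ATM.{v}) : A_ATM.{v} := by
  classical
  intro Ω _ m _ S hS H B σ hH hb hσ F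
  have hfin : IsFiniteMeasure σ := hσ.1
  suffices hs : ∃ φ : T1 → Ω → ℂ, (∀ t, Measurable (φ t)) ∧ (∃ C : ℝ, ∀ t ω, ‖φ t ω‖ ≤ C) ∧
      (∀ t, ∀ᵐ ω ∂m, φ t (S ω) = fourier 1 t * φ t ω) ∧
      IsSpec m S (fun ω => H ω - ∑ t ∈ F, φ t ω) (σ.restrict (F : Set T1)ᶜ) from hs
  induction F using Finset.induction_on with
  | empty =>
    refine ⟨fun _ _ => 0, fun _ => measurable_const, ⟨0, fun _ _ => by simp⟩,
      fun t => Eventually.of_forall fun ω => by simp, ?_⟩
    simpa using hσ
  | insert a F ha ih =>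
    obtain ⟨φ, h1, ⟨C, h2⟩, h3, h4⟩ := ih
    have hfin2 : IsFiniteMeasure (σ.restrict (F : Set T1)ᶜ) := inferInstance
    have hqm : Measurable fun ω => H ω - ∑ t ∈ F, φ t ω :=
      hH.sub (Finset.measurable_sum _ fun t _ => h1 t)
    have hqb : ∀ ω, ‖H ω - ∑ t ∈ F, φ t ω‖ ≤ B + ∑ _t ∈ F, C := by
      intro ω
      refine (norm_sub_le _ _).trans (add_le_add (hb ω) ?_)
      exact (norm_sum_le _ _).trans (Finset.sum_le_sum fun t _ => h2 t ω)
    obtain ⟨ψ, k1, k2, k3, k4⟩ := h Ω m S hS (fun ω => H ω - ∑ t ∈ F, φ t ω) (B + ∑ _t ∈ F, C)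
      hqm hqb a (σ.restrict (F : Set T1)ᶜ) h4.2
    refine ⟨fun t => if t = a then ψ else φ t, ?_, ⟨max C (B + ∑ _t ∈ F, C), ?_⟩, ?_, ?_, ?_⟩
    · intro t
      by_cases ht : t = a
      · simp only [ht, if_true]; exact k1
      · simp only [ht, if_false]; exact h1 t
    · intro t ω
      by_cases ht : t = a
      · simp only [ht, if_true]; exact (k2 ω).trans (le_max_right _ _)
      · simp only [ht, if_false]; exact (h2 t ω).trans (le_max_left _ _)
    · intro t
      by_cases ht : t = a
      · simp only [ht, if_true]; exact k3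
      · simp only [ht, if_false]; exact h3 t
    · infer_instance
    · intro n
      have e1 : (fun ω => H ω - ∑ t ∈ insert a F, (if t = a then ψ else φ t) ω) =
          fun ω => (H ω - ∑ t ∈ F, φ t ω) - ψ ω := by
        funext ω
        rw [Finset.sum_insert ha]
        have e2 : ∑ t ∈ F, (if t = a then ψ else φ t) ω = ∑ t ∈ F, φ t ω := by
          refine Finset.sum_congr rfl fun t ht => ?_
          have : t ≠ a := fun h => ha (h ▸ ht)
          simp only [this, if_false]
        rw [e2]
        simp only [if_true]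
        ring
      have e3 : (σ.restrict (F : Set T1)ᶜ).restrict {a}ᶜ =
          σ.restrict ((insert a F : Finset T1) : Set T1)ᶜ := by
        rw [Measure.restrict_restrict (measurableSet_singleton a).compl]
        congr 1
        ext t
        simp only [Set.mem_inter_iff, Set.mem_compl_iff, Set.mem_singleton_iff, Finset.coe_insert,
          Set.mem_insert_iff, Finset.mem_coe]
        tauto
      have k5 := k4 n
      rw [e3] at k5
      rw [← k5]
      show ∫ ω, (fun ω => H ω - ∑ t ∈ insert a F, (if t = a then ψ else φ t) ω) (S^[n] ω) *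
        conj ((fun ω => H ω - ∑ t ∈ insert a F, (if t = a then ψ else φ t) ω) ω) ∂m = _
      rw [e1]
      rfl

end Pool.Agent.H94.SS
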