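import Pool.Agent.H84.SS.Targets

/-!
Row D_EXT of ssp_modules: extension of a triple to integer indices.
-/

set_option autoImplicit false

namespace Pool.Agent.H94.SS

open MeasureTheory Filter Topology Set ProbabilityTheory
open scoped ENNReal ComplexConjugate
open Pool.Agent.H84.SS
open Pool.Agent.H85.RT (avg GoodWeight Good)
open Pool.Agent.H94.RTB (LGood PD)

/-- the shift which makes three integers nonnegative -/
def k0 (a b c : ℤ) : ℕ := (max (max (-a) (-b)) (max (-c) 0)).toNat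

theorem k0_spec (a b c : ℤ) : 0 ≤ a + k0 a b c ∧ 0 ≤ b + k0 a b c ∧ 0 ≤ c + k0 a b c := by
  unfold k0
  omega

theorem k0_le (a b c : ℤ) (k : ℕ) (ha : 0 ≤ a + k) (hb : 0 ≤ b + k) (hc : 0 ≤ c + k) :
    k0 a b c ≤ k := by
  unfold k0
  omega

/-- the extension -/
def Rz (r : ℕ → ℕ → ℕ → ℂ) (a b c : ℤ) : ℂ :=
  r (a + k0 a b c).toNat (b + k0 a b c).toNat (c + k0 a b c).toNat

theorem r_shift {r : ℕ → ℕ → ℕ → ℂ} (h : ∀ a b c, r (a + 1) (b + 1) (c + 1) = r a b c)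
    (a b c k : ℕ) : r (a + k) (b + k) (c + k) = r a b c := by
  induction k with
  | zero => rfl
  | succ k ih => rw [← add_assoc, ← add_assoc, ← add_assoc, h, ih]

theorem Rz_eq {r : ℕ → ℕ → ℕ → ℂ} (h : ∀ a b c, r (a + 1) (b + 1) (c + 1) = r a b c)
    (a b c : ℤ) (k : ℕ) (ha : 0 ≤ a + k) (hb : 0 ≤ b + k) (hc : 0 ≤ c + k) :
    Rz r a b c = r (a + k).toNat (b + k).toNat (c + k).toNat := by
  obtain ⟨d, hd⟩ := Nat.exists_eq_add_of_le (k0_le a b c k ha hb hc)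
  have h0 := k0_spec a b c
  have e1 : (a + k).toNat = (a + k0 a b c).toNat + d := by omega
  have e2 : (b + k).toNat = (b + k0 a b c).toNat + d := by omega
  have e3 : (c + k).toNat = (c + k0 a b c).toNat + d := by omega
  rw [e1, e2, e3, r_shift h]
  rfl

theorem Rz_inv {r : ℕ → ℕ → ℕ → ℂ} (h : ∀ a b c, r (a + 1) (b + 1) (c + 1) = r a b c)
    (a b c k : ℤ) : Rz r (a + k) (b + k) (c + k) = Rz r a b c := by
  set K : ℕ := a.natAbs + b.natAbs + c.natAbs + k.natAbs with hK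
  have h1 := Rz_eq h (a + k) (b + k) (c + k) K (by omega) (by omega) (by omega)
  have h2 := Rz_eq h a b c (k + K).toNat (by omega) (by omega) (by omega)
  rw [h1, h2]
  have e1 : (a + k + K).toNat = (a + ((k + K).toNat : ℤ)).toNat := by omega
  have e2 : (b + k + K).toNat = (b + ((k + K).toNat : ℤ)).toNat := by omega
  have e3 : (c + k + K).toNat = (c + ((k + K).toNat : ℤ)).toNat := by omega
  rw [e1, e2, e3]

/-- a natural number which makes all the coordinates nonnegative -/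
theorem exists_K (s : Finset (ℤ × ℤ)) : ∃ K : ℕ, ∀ i ∈ s, 0 ≤ i.1 + K ∧ 0 ≤ i.2 + K := by
  refine ⟨∑ i ∈ s, (i.1.natAbs + i.2.natAbs), fun i hi => ?_⟩
  have h1 : i.1.natAbs + i.2.natAbs ≤ ∑ i ∈ s, (i.1.natAbs + i.2.natAbs) :=
    Finset.single_le_sum (f := fun i : ℤ × ℤ => i.1.natAbs + i.2.natAbs)
      (fun _ _ => Nat.zero_le _) hi
  omega

/-- transport of a bound from natural to integer indices -/
theorem transport (p q : ℤ → ℂ) (C : ℝ) (f : ℕ × ℕ → ℂ) (s : Finset (ℤ × ℤ)) (K : ℕ)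
    (hK : ∀ i ∈ s, 0 ≤ i.1 + K ∧ 0 ≤ i.2 + K)
    (hb : ∀ (s : Finset (ℕ × ℕ)) (u : ℕ × ℕ → ℂ), ‖∑ i ∈ s, u i * f i‖ ^ 2 ≤ C * (qf p q s u).re)
    (u : ℤ × ℤ → ℂ) :
    ‖∑ i ∈ s, u i * f ((i.1 + K).toNat, (i.2 + K).toNat)‖ ^ 2 ≤ C * (qz p q s u).re := by
  classical
  set e : ℤ × ℤ → ℕ × ℕ := fun i => ((i.1 + K).toNat, (i.2 + K).toNat) with he
  set e' : ℕ × ℕ → ℤ × ℤ := fun j => ((j.1 : ℤ) - K, (j.2 : ℤ) - K) with he'
  have hee : ∀ i ∈ s, e' (e i) = i := by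
    intro i hi
    have := hK i hi
    simp only [he, he']
    rw [Int.toNat_of_nonneg this.1, Int.toNat_of_nonneg this.2]
    simp
  have hinj : Set.InjOn e s := by
    intro i hi j hj h
    rw [← hee i hi, ← hee j hj, h]
  have h1 := hb (s.image e) (fun j => u (e' j))
  have h2 : ∑ j ∈ s.image e, u (e' j) * f j = ∑ i ∈ s, u i * f (e i) := by
    rw [Finset.sum_image hinj]
    refine Finset.sum_congr rfl fun i hi => ?_
    rw [hee i hi]
  have h3 : qf p q (s.image e) (fun j => u (e' j)) = qz p q s u := by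
    unfold qf qz
    rw [Finset.sum_image hinj]
    refine Finset.sum_congr rfl fun i hi => ?_
    rw [Finset.sum_image hinj]
    refine Finset.sum_congr rfl fun j hj => ?_
    have e1 : (((e i).1 : ℕ) : ℤ) - (((e j).1 : ℕ) : ℤ) = i.1 - j.1 := by
      simp only [he]
      rw [Int.toNat_of_nonneg (hK i hi).1, Int.toNat_of_nonneg (hK j hj).1]
      ring
    have e2 : (((e i).2 : ℕ) : ℤ) - (((e j).2 : ℕ) : ℤ) = i.2 - j.2 := by
      simp only [he]
      rw [Int.toNat_of_nonneg (hK i hi).2, Int.toNat_of_nonneg (hK j hj).2]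
      ring
    show u (e' (e i)) * conj (u (e' (e j))) * p ((((e i).1 : ℕ) : ℤ) - (((e j).1 : ℕ) : ℤ)) *
      q ((((e i).2 : ℕ) : ℤ) - (((e j).2 : ℕ) : ℤ)) = _
    rw [hee i hi, hee j hj, e1, e2]
  rw [h2, h3] at h1
  exact h1

theorem pf_EXT : D_EXT := by
  intro C₁₂ C₁₃ C₂₃ p₁ p₂ p₃ r hr
  refine ⟨Rz r, ?_, Rz_inv hr.inv, ?_, ?_, ?_⟩
  · have := Rz_eq hr.inv 0 0 0 0 (by simp) (by simp) (by simp)
    simpa using this
  · intro s u
    obtain ⟨K, hK⟩ := exists_K s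
    have h1 := transport p₁ p₂ C₁₂ (fun j => r j.1 j.2 K) s K hK (fun s u => hr.b12 K s u) u
    have h2 : ∑ i ∈ s, u i * Rz r i.1 i.2 0 =
        ∑ i ∈ s, u i * (fun j : ℕ × ℕ => r j.1 j.2 K) ((i.1 + K).toNat, (i.2 + K).toNat) := by
      refine Finset.sum_congr rfl fun i hi => ?_
      rw [Rz_eq hr.inv i.1 i.2 0 K (hK i hi).1 (hK i hi).2 (by simp)]
      simp
    rw [h2]
    exact h1
  · intro s u
    obtain ⟨K, hK⟩ := exists_K s
    have h1 := transport p₁ p₃ C₁₃ (fun j => r j.1 K j.2) s K hK (fun s u => hr.b13 K s u) u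
    have h2 : ∑ i ∈ s, u i * Rz r i.1 0 i.2 =
        ∑ i ∈ s, u i * (fun j : ℕ × ℕ => r j.1 K j.2) ((i.1 + K).toNat, (i.2 + K).toNat) := by
      refine Finset.sum_congr rfl fun i hi => ?_
      rw [Rz_eq hr.inv i.1 0 i.2 K (hK i hi).1 (by simp) (hK i hi).2]
      simp
    rw [h2]
    exact h1
  · intro s u
    obtain ⟨K, hK⟩ := exists_K s
    have h1 := transport p₂ p₃ C₂₃ (fun j => r K j.1 j.2) s K hK (fun s u => hr.b23 K s u) u
    have h2 : ∑ i ∈ s, u i * Rz r 0 i.1 i.2 =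
        ∑ i ∈ s, u i * (fun j : ℕ × ℕ => r K j.1 j.2) ((i.1 + K).toNat, (i.2 + K).toNat) := by
      refine Finset.sum_congr rfl fun i hi => ?_
      rw [Rz_eq hr.inv 0 i.1 i.2 K (by simp) (hK i hi).1 (hK i hi).2]
      simp
    rw [h2]
    exact h1

end Pool.Agent.H94.SS
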