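import Pool.Agent.H84.SS.Targets
import Pool.Agent.H35.RTB.DEC

/-!
Row A_WGD of ssp_modules: almost every point gives a good weight with the right correlations.
-/

set_option autoImplicit false

namespace Pool.Agent.H94.SS

open MeasureTheory Filter Topology Set ProbabilityTheory
open scoped ENNReal ComplexConjugate
open Pool.Agent.H84.SS
open Pool.Agent.H85.RT (avg GoodWeight Good)
open Pool.Agent.H94.RTB (LGood PD)
open Pool.Agent.H35.RTB (gamZ gamZ_nat conj_fourier meas_iter)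

universe u v

theorem gamZ_spec {Ω : Type v} [MeasurableSpace Ω] {m : Measure Ω} {S : Ω → Ω} {h : Ω → ℂ}
    {σ : Measure T1} (hσ : IsSpec m S h σ) (n : ℤ) : gamZ m S h n = ∫ t, fourier n t ∂σ := by
  unfold gamZ
  split_ifs with hn
  · have := hσ.2 n.toNat
    rw [Int.toNat_of_nonneg hn] at this
    exact this
  · have h1 := hσ.2 (-n).toNat
    rw [Int.toNat_of_nonneg (by omega)] at h1
    have h2 : Pool.Agent.H94.RTB.gam m S h (-n).toNat = ∫ t, fourier (-n) t ∂σ := h1
    rw [h2, ← integral_conj]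
    refine integral_congr_ae (Eventually.of_forall fun x => ?_)
    show conj (fourier (-n) x : ℂ) = (fourier n x : ℂ)
    rw [conj_fourier, neg_neg]

theorem pf_WGD (h1 : A_BIR.{v}) (h2 : Pool.Agent.H94.RTB.T_RTT.{u, v}) : A_WGD.{u, v} := by
  intro Ω _ m _ S hS q B σ hq hb hσ
  have hmp : MeasurePreserving S m m := hS.toMeasurePreserving
  have hΩ : Nonempty Ω := by
    by_contra hne
    rw [not_nonempty_iff] at hne
    have := measure_univ (μ := m)
    rw [Set.eq_empty_of_isEmpty (Set.univ : Set Ω), measure_empty] at this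
    exact zero_ne_one this
  have hB : 0 ≤ B := (norm_nonneg _).trans (hb hΩ.some)
  have hHm : ∀ a a' : ℕ, Measurable fun ω => q (S^[a] ω) * conj (q (S^[a'] ω)) := fun a a' =>
    (hq.comp (meas_iter a)).mul (Complex.continuous_conj.measurable.comp (hq.comp (meas_iter a')))
  have hHb : ∀ (a a' : ℕ) (ω : Ω), ‖q (S^[a] ω) * conj (q (S^[a'] ω))‖ ≤ B * B := by
    intro a a' ω
    rw [norm_mul, RCLike.norm_conj]
    exact mul_le_mul (hb _) (hb _) (norm_nonneg _) hB
  have k1 : ∀ᵐ ω ∂m, ∀ a a' : ℕ, Tendsto (fun N : ℕ => (∑ n ∈ Finset.Icc 1 N,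
      (fun ω => q (S^[a] ω) * conj (q (S^[a'] ω))) (S^[n] ω)) / (N : ℂ)) atTop
      (𝓝 (∫ ω', q (S^[a] ω') * conj (q (S^[a'] ω')) ∂m)) := by
    rw [ae_all_iff]
    intro a
    rw [ae_all_iff]
    intro a'
    exact h1 Ω m S hS (fun ω => q (S^[a] ω) * conj (q (S^[a'] ω))) (B * B) (hHm a a') (hHb a a')
  have e : ∀ (a a' n : ℕ) (ω : Ω), q (S^[n + a] ω) * conj (q (S^[n + a'] ω)) =
      (fun ω => q (S^[a] ω) * conj (q (S^[a'] ω))) (S^[n] ω) := by
    intro a a' n ω
    show q (S^[n + a] ω) * conj (q (S^[n + a'] ω)) =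
      q (S^[a] (S^[n] ω)) * conj (q (S^[a'] (S^[n] ω)))
    rw [add_comm n a, add_comm n a', Function.iterate_add_apply, Function.iterate_add_apply]
  have k2 : ∀ a a' : ℕ, ∀ᵐ ω ∂m, LGood.{u} (fun n => q (S^[n + a] ω) * conj (q (S^[n + a'] ω))) := by
    intro a a'
    filter_upwards [h2 Ω m S hS (fun ω => q (S^[a] ω) * conj (q (S^[a'] ω))) (hHm a a')
      ⟨B * B, hHb a a'⟩] with ω a2
    intro X _ μ _ T hT F hF hF1
    have h5 := a2 X μ T hT F hF ⟨1, hF1⟩
    filter_upwards [h5] with x ⟨l, hl⟩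
    refine ⟨l, hl.congr fun N => ?_⟩
    unfold Pool.Agent.H94.RTB.Av
    congr 1
    refine Finset.sum_congr rfl fun n _ => ?_
    exact congrArg (· * F (T^[n] x)) (e a a' n ω).symm
  have k3 : ∀ᵐ ω ∂m, ∀ a a' : ℕ,
      LGood.{u} (fun n => q (S^[n + a] ω) * conj (q (S^[n + a'] ω))) := by
    rw [ae_all_iff]
    intro a
    rw [ae_all_iff]
    exact k2 a
  filter_upwards [k1, k3] with ω a1 a2
  refine ⟨fun n => hb _, fun a a' => ?_, fun a a' => a2 a a'⟩
  have h5 := a1 a a'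
  rw [gamZ_nat hmp, gamZ_spec hσ] at h5
  refine h5.congr fun N => ?_
  congr 1
  exact Finset.sum_congr rfl fun n _ => (e a a' n ω).symm

end Pool.Agent.H94.SS
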